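import Pool.Agent.R801.KM.Defs

/-!
# The group argument
-/

namespace Pool.Agent.R801.KM

variable {K : Type} [Field K] [Algebra (ZMod 2) K]

lemma two_zero' (K : Type) [Field K] [Algebra (ZMod 2) K] : (2 : K) = 0 := by
  have h := map_ofNat (algebraMap (ZMod 2) K) 2
  have h0 : (OfNat.ofNat 2 : ZMod 2) = 0 := by decide
  rw [h0, map_zero] at h
  exact h.symm

lemma add_self_K (x : K) : x + x = 0 := by
  rw [← two_mul, two_zero' K, zero_mul]

lemma add_self_V {M : Type} [AddCommGroup M] [Module K M] (x : M) : x + x = 0 := by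
  rw [← two_smul K x, two_zero' K, zero_smul]

lemma mem_ext_iff {U : Submodule (ZMod 2) (W K)} {v y : W K × K} :
    y ∈ ext U v ↔ (y.2 = 0 ∧ y.1 ∈ U) ∨ (y - v).2 = 0 ∧ (y - v).1 ∈ U := by
  unfold ext
  rw [Submodule.mem_sup]
  constructor
  · rintro ⟨a, ha, b, hb, rfl⟩
    obtain ⟨u, hu, rfl⟩ := (Submodule.mem_map).mp ha
    obtain ⟨c, rfl⟩ := (Submodule.mem_span_singleton).mp hb
    have hc : c = 0 ∨ c = 1 := by
      fin_cases c
      · left; rfl
      · right; rfl
    rcases hc with rfl | rfl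
    · left; simpa using hu
    · right; simpa using hu
  · rintro (⟨h1, h2⟩ | ⟨h1, h2⟩)
    · refine ⟨(y.1, 0), ?_, 0, Submodule.zero_mem _, ?_⟩
      · exact Submodule.mem_map.mpr ⟨y.1, h2, rfl⟩
      · rw [add_zero]; exact Prod.ext rfl h1.symm
    · refine ⟨((y - v).1, 0), ?_, v, Submodule.mem_span_singleton_self v, ?_⟩
      · exact Submodule.mem_map.mpr ⟨(y - v).1, h2, rfl⟩
      · apply Prod.ext
        · simp
        · have : y.2 - v.2 = 0 := h1
          simp only [Prod.snd_add]
          linear_combination -this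

/-- Affine points of the arc. -/
lemma mem_arc_aff {U : Submodule (ZMod 2) (W K)} {v y : W K × K} (hv : v.2 ≠ 0) (hy : y.2 ≠ 0) :
    y ∈ arc U v ↔ (v.2 / y.2) • y.1 - v.1 ∈ U := by
  unfold arc
  simp only [Set.mem_ofPred_eq]
  constructor
  · rintro ⟨-, ⟨-, c, hc, hm⟩ | ⟨h, -⟩⟩
    · rw [mem_ext_iff] at hm
      rcases hm with ⟨h1, -⟩ | ⟨h1, h2⟩
      · exfalso
        have : c * y.2 = 0 := h1
        rcases mul_eq_zero.mp this with h | h
        · exact hc h
        · exact hy h
      · have h3 : c * y.2 - v.2 = 0 := h1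
        have h4 : c = v.2 / y.2 := by
          field_simp
          linear_combination h3
        rw [← h4]
        exact h2
    · exact absurd h hy
  · intro h
    refine ⟨fun h0 => hy (by rw [h0]; rfl), Or.inl ⟨hy, v.2 / y.2, div_ne_zero hv hy, ?_⟩⟩
    rw [mem_ext_iff]
    right
    refine ⟨?_, h⟩
    show v.2 / y.2 * y.2 - v.2 = 0
    field_simp
    ring

lemma mem_arc_inf {U : Submodule (ZMod 2) (W K)} {v y : W K × K} (hy : y.2 = 0) :
    y ∈ arc U v ↔ y ≠ 0 ∧ y.1 ∉ LW U := by
  unfold arc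
  simp only [Set.mem_ofPred_eq]
  constructor
  · rintro ⟨h0, ⟨h, -⟩ | ⟨-, h⟩⟩
    · exact absurd hy h
    · exact ⟨h0, h⟩
  · rintro ⟨h0, h⟩
    exact ⟨h0, Or.inr ⟨hy, h⟩⟩

/-- The elation with axis `X_2 = 0`. -/
def el (v : W K × K) (u : W K) (y : W K × K) : W K × K := (y.1 + (y.2 / v.2) • u, y.2)

lemma el_el (v : W K × K) (u : W K) (y : W K × K) : el v u (el v u y) = y := by
  unfold el
  apply Prod.ext
  · show y.1 + (y.2 / v.2) • u + (y.2 / v.2) • u = y.1
    rw [add_assoc, add_self_V (K := K), add_zero]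
  · rfl

lemma el_add (v : W K × K) (u : W K) (y z : W K × K) : el v u (y + z) = el v u y + el v u z := by
  unfold el
  apply Prod.ext
  · show y.1 + z.1 + ((y.2 + z.2) / v.2) • u = y.1 + (y.2 / v.2) • u + (z.1 + (z.2 / v.2) • u)
    rw [add_div, add_smul]
    abel
  · rfl

lemma el_smul (v : W K × K) (u : W K) (c : K) (y : W K × K) : el v u (c • y) = c • el v u y := by
  unfold el
  apply Prod.ext
  · show c • y.1 + ((c * y.2) / v.2) • u = c • (y.1 + (y.2 / v.2) • u)
    rw [smul_add, smul_smul, mul_div_assoc]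
  · rfl

lemma el_snd (v : W K × K) (u : W K) (y : W K × K) : (el v u y).2 = y.2 := rfl

lemma el_arc {U : Submodule (ZMod 2) (W K)} {v : W K × K} (hv : v.2 ≠ 0) {u : W K} (hu : u ∈ U)
    (y : W K × K) : el v u y ∈ arc U v ↔ y ∈ arc U v := by
  by_cases hy : y.2 = 0
  · have : el v u y = y := by
      unfold el
      apply Prod.ext
      · show y.1 + (y.2 / v.2) • u = y.1
        rw [hy]; simp
      · rfl
    rw [this]
  · rw [mem_arc_aff hv hy, mem_arc_aff hv (by rw [el_snd]; exact hy)]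
    have e : (v.2 / (el v u y).2) • (el v u y).1 - v.1 = ((v.2 / y.2) • y.1 - v.1) + u := by
      show (v.2 / y.2) • (y.1 + (y.2 / v.2) • u) - v.1 = _
      rw [smul_add, smul_smul]
      have : v.2 / y.2 * (y.2 / v.2) = 1 := by field_simp
      rw [this, one_smul]
      abel
    rw [e]
    exact ⟨fun h => by simpa using U.sub_mem h hu, fun h => U.add_mem h hu⟩

/-- The elation as an additive equivalence. -/
def elE (v : W K × K) (u : W K) : (W K × K) ≃+ (W K × K) where
  toFun := el v u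
  invFun := el v u
  left_inv := el_el v u
  right_inv := el_el v u
  map_add' := el_add v u

lemma elE_apply (v : W K × K) (u : W K) (y : W K × K) : elE v u y = el v u y := rfl

/-- The case in which the line at infinity is preserved. -/
lemma caseA [Finite K] {U₁ U₂ : Submodule (ZMod 2) (W K)} {v₁ v₂ : W K × K} (hv₁ : v₁.2 ≠ 0)
    (hv₂ : v₂.2 ≠ 0) (σ : K ≃+* K) (F : (W K × K) ≃+ (W K × K)) (hF : IsSemi σ F)
    (hA : ∀ y, y ∈ arc U₁ v₁ ↔ F y ∈ arc U₂ v₂) (hP : ∀ y, y.2 = 0 → (F y).2 = 0) :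
    EquivU U₁ U₂ := by
  classical
  -- the restriction
  let f : W K →+ W K :=
    { toFun := fun x => (F (x, 0)).1
      map_zero' := by
        show (F (0 : W K × K)).1 = 0
        rw [map_zero]; rfl
      map_add' := by
        intro x y
        have : ((x + y, 0) : W K × K) = (x, 0) + (y, 0) := by
          apply Prod.ext
          · rfl
          · show (0 : K) = 0 + 0
            rw [add_zero]
        rw [this, map_add]; rfl }
  have hf : ∀ x, F (x, 0) = (f x, 0) := fun x => Prod.ext rfl (hP _ rfl)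
  have hinj : Function.Injective f := by
    intro x y e
    have : F (x, 0) = F (y, 0) := by rw [hf, hf, e]
    exact congrArg Prod.fst (F.injective this)
  have hsurj : Function.Surjective f := Finite.surjective_of_injective hinj
  have hsemi : ∀ (c : K) (x : W K), f (c • x) = σ c • f x := by
    intro c x
    have e : ((c • x, 0) : W K × K) = c • (x, 0) := by
      apply Prod.ext
      · rfl
      · show (0 : K) = c * 0
        rw [mul_zero]
    show (F (c • x, 0)).1 = _
    rw [e, hF]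
    rfl
  set ν := (F v₁).2 with hν
  have hν0 : ν ≠ 0 := by
    intro h0
    obtain ⟨x, hx⟩ := hsurj (F v₁).1
    have : F (x, 0) = F v₁ := by
      rw [hf]
      exact Prod.ext hx (by rw [← hν, h0])
    have := congrArg Prod.snd (F.injective this)
    exact hv₁ this.symm
  have hkey : ∀ x : W K, x ∈ U₁ ↔ (v₂.2 / ν) • (f x + (F v₁).1) - v₂.1 ∈ U₂ := by
    intro x
    have e1 : (F ((x, 0) + v₁)).2 = ν := by
      rw [map_add, hf]
      show 0 + (F v₁).2 = ν
      rw [zero_add]
    have h1 : ((x, 0) + v₁ : W K × K).2 ≠ 0 := by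
      show 0 + v₁.2 ≠ 0
      rw [zero_add]; exact hv₁
    have h2 := hA ((x, 0) + v₁)
    rw [mem_arc_aff hv₁ h1, mem_arc_aff hv₂ (by rw [e1]; exact hν0), e1] at h2
    have e2 : (v₁.2 / ((x, 0) + v₁ : W K × K).2) • ((x, 0) + v₁ : W K × K).1 - v₁.1 = x := by
      show (v₁.2 / (0 + v₁.2)) • (x + v₁.1) - v₁.1 = x
      rw [zero_add, div_self hv₁, one_smul, add_sub_cancel_right]
    have e3 : (F ((x, 0) + v₁)).1 = f x + (F v₁).1 := by
      rw [map_add, hf]; rfl
    rw [e2, e3] at h2
    exact h2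
  have h0 := (hkey 0).mp U₁.zero_mem
  rw [map_zero, zero_add] at h0
  set c := v₂.2 / ν with hc
  have hc0 : c ≠ 0 := div_ne_zero hv₂ hν0
  let G : W K →+ W K :=
    { toFun := fun x => c • f x
      map_zero' := by rw [map_zero, smul_zero]
      map_add' := by intro x y; rw [map_add, smul_add] }
  have hG : ∀ x, x ∈ U₁ ↔ G x ∈ U₂ := by
    intro x
    rw [hkey x]
    have e : c • (f x + (F v₁).1) - v₂.1 = G x + (c • (F v₁).1 - v₂.1) := by
      show _ = c • f x + _
      rw [smul_add]; abel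
    rw [e]
    exact ⟨fun h => by simpa using U₂.sub_mem h h0, fun h => U₂.add_mem h h0⟩
  have hGinj : Function.Injective G := by
    intro x y e
    have e' : c • f x = c • f y := e
    exact hinj (smul_right_injective _ hc0 e')
  have hGbij : Function.Bijective G := ⟨hGinj, Finite.surjective_of_injective hGinj⟩
  refine ⟨σ, AddEquiv.ofBijective G hGbij, ?_, ?_⟩
  · intro a x
    show c • f (a • x) = σ a • (c • f x)
    rw [hsemi, smul_comm]
  · intro x
    rw [AddEquiv.ofBijective_apply]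
    exact hG x

/-- The main reduction: hypotheses on `U`: it lies in no line and the complement of `L_U` is not
contained in one point. -/
theorem reduction [Finite K] {U₁ U₂ : Submodule (ZMod 2) (W K)} {v₁ v₂ : W K × K}
    (hv₁ : v₁.2 ≠ 0) (hv₂ : v₂.2 ≠ 0)
    (hs₁ : ∀ S : Submodule K (W K), (∀ u ∈ U₁, u ∈ S) → S = ⊤)
    (hc₁ : ∀ S : Submodule K (W K), (∀ x, x ≠ 0 → x ∉ LW U₁ → x ∈ S) → S = ⊤)
    (hc₂ : ∀ S : Submodule K (W K), (∀ x, x ≠ 0 → x ∉ LW U₂ → x ∈ S) → S = ⊤)
    (h : EquivArc (arc U₁ v₁) (arc U₂ v₂)) : EquivU U₁ U₂ := by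
  classical
  obtain ⟨σ, F, hF, hA⟩ := h
  by_cases hP : ∀ y : W K × K, y.2 = 0 → (F y).2 = 0
  · exact caseA hv₁ hv₂ σ F hF hA hP
  push Not at hP
  obtain ⟨y0, hy0, hFy0⟩ := hP
  -- inverse
  have hFs : ∀ (c : K) (y : W K × K), F.symm (c • y) = σ.symm c • F.symm y := by
    intro c y
    apply F.injective
    rw [F.apply_symm_apply, hF, σ.apply_symm_apply, F.apply_symm_apply]
  -- the functional `π ∘ F` on the plane, its kernel
  let S1 : Submodule K (W K) :=
    { carrier := {x | (F (x, 0)).2 = 0}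
      zero_mem' := by
        show (F (0 : W K × K)).2 = 0
        rw [map_zero]; rfl
      add_mem' := by
        intro x y hx hy
        have : ((x + y, 0) : W K × K) = (x, 0) + (y, 0) :=
          Prod.ext rfl (by show (0 : K) = 0 + 0; rw [add_zero])
        show (F (x + y, 0)).2 = 0
        rw [this, map_add]
        show (F (x, 0)).2 + (F (y, 0)).2 = 0
        rw [show (F (x, 0)).2 = 0 from hx, show (F (y, 0)).2 = 0 from hy, add_zero]
      smul_mem' := by
        intro c x hx
        have : ((c • x, 0) : W K × K) = c • (x, 0) :=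
          Prod.ext rfl (by show (0 : K) = c * 0; rw [mul_zero])
        show (F (c • x, 0)).2 = 0
        rw [this, hF]
        show σ c * (F (x, 0)).2 = 0
        rw [show (F (x, 0)).2 = 0 from hx, mul_zero] }
  have hy0' : y0 = (y0.1, 0) := Prod.ext rfl hy0
  have hS1 : S1 ≠ ⊤ := by
    intro htop
    have : y0.1 ∈ S1 := by rw [htop]; trivial
    have h1 : (F (y0.1, 0)).2 = 0 := this
    rw [← hy0'] at h1
    exact hFy0 h1
  -- the functional `g`
  let g : W K × K → K := fun y => σ (F.symm y).2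
  have hg_add : ∀ y z, g (y + z) = g y + g z := by
    intro y z
    show σ (F.symm (y + z)).2 = _
    rw [map_add]
    show σ ((F.symm y).2 + (F.symm z).2) = _
    rw [map_add]
  have hg_smul : ∀ c y, g (c • y) = c * g y := by
    intro c y
    show σ (F.symm (c • y)).2 = _
    rw [hFs]
    show σ (σ.symm c * (F.symm y).2) = _
    rw [map_mul, σ.apply_symm_apply]
  let S2 : Submodule K (W K) :=
    { carrier := {x | g (x, 0) = 0}
      zero_mem' := by
        show σ (F.symm (0 : W K × K)).2 = 0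
        rw [map_zero]
        show σ 0 = 0
        rw [map_zero]
      add_mem' := by
        intro x y hx hy
        have : ((x + y, 0) : W K × K) = (x, 0) + (y, 0) :=
          Prod.ext rfl (by show (0 : K) = 0 + 0; rw [add_zero])
        show g (x + y, 0) = 0
        rw [this, hg_add, show g (x, 0) = 0 from hx, show g (y, 0) = 0 from hy, add_zero]
      smul_mem' := by
        intro c x hx
        have : ((c • x, 0) : W K × K) = c • (x, 0) :=
          Prod.ext rfl (by show (0 : K) = c * 0; rw [mul_zero])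
        show g (c • x, 0) = 0
        rw [this, hg_smul, show g (x, 0) = 0 from hx, mul_zero] }
  have hgF : ∀ y, g (F y) = σ y.2 := by
    intro y
    show σ (F.symm (F y)).2 = _
    rw [F.symm_apply_apply]
  have hS2 : S2 ≠ ⊤ := by
    intro htop
    have hz : ∀ x : W K, g (x, 0) = 0 := fun x => by
      have : x ∈ S2 := by rw [htop]; trivial
      exact this
    -- then `g` vanishes everywhere
    have h1 : g (F y0) = 0 := by rw [hgF, hy0, map_zero]
    have h2 : g (0, 1) = 0 := by
      have e : F y0 = ((F y0).1, 0) + (F y0).2 • ((0 : W K), (1 : K)) := by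
        apply Prod.ext
        · show (F y0).1 = (F y0).1 + (F y0).2 • 0
          rw [smul_zero, add_zero]
        · show (F y0).2 = 0 + (F y0).2 * 1
          rw [zero_add, mul_one]
      rw [e, hg_add, hz, zero_add, hg_smul] at h1
      rcases mul_eq_zero.mp h1 with h | h
      · exact absurd h hFy0
      · exact h
    have h3 : ∀ y, g y = 0 := by
      intro y
      have e : y = (y.1, 0) + y.2 • ((0 : W K), (1 : K)) := by
        apply Prod.ext
        · show y.1 = y.1 + y.2 • 0
          rw [smul_zero, add_zero]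
        · show y.2 = 0 + y.2 * 1
          rw [zero_add, mul_one]
      rw [e, hg_add, hz, hg_smul, h2, mul_zero, add_zero]
    have h4 := h3 (F v₁)
    rw [hgF] at h4
    exact hv₁ ((map_eq_zero σ).mp h4)
  -- choice of `u₁`
  obtain ⟨u₁, hu₁, hau⟩ : ∃ u ∈ U₁, (F (u, 0)).2 ≠ 0 := by
    by_contra hcon
    push Not at hcon
    exact hS1 (hs₁ S1 hcon)
  set a := F (u₁, 0) with ha
  have hga : g a = 0 := by rw [ha, hgF]; exact map_zero σ
  set κ := σ v₁.2 with hκ
  have hκ0 : κ ≠ 0 := fun h0 => hv₁ ((map_eq_zero σ).mp h0)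
  -- the conjugated elation
  have he : ∀ y, F (el v₁ u₁ (F.symm y)) = y + (g y / κ) • a := by
    intro y
    have e1 : el v₁ u₁ (F.symm y) = F.symm y + ((F.symm y).2 / v₁.2) • ((u₁, 0) : W K × K) := by
      unfold el
      apply Prod.ext
      · rfl
      · show (F.symm y).2 = (F.symm y).2 + (F.symm y).2 / v₁.2 * 0
        rw [mul_zero, add_zero]
    rw [e1, map_add, F.apply_symm_apply, hF, map_div₀]
  have heA : ∀ y, F (el v₁ u₁ (F.symm y)) ∈ arc U₂ v₂ ↔ y ∈ arc U₂ v₂ := by
    intro y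
    rw [← hA, el_arc hv₁ hu₁, hA, F.apply_symm_apply]
  -- an affine point of the arc on `m`
  obtain ⟨d, hd0, hdL, hd⟩ : ∃ d : W K, d ≠ 0 ∧ d ∉ LW U₁ ∧ (F (d, 0)).2 ≠ 0 := by
    by_contra hcon
    push Not at hcon
    exact hS1 (hc₁ S1 hcon)
  have hdA : F (d, 0) ∈ arc U₂ v₂ := by
    rw [← hA, mem_arc_inf rfl]
    exact ⟨fun h0 => hd0 (congrArg Prod.fst h0), hdL⟩
  have hdg : g (F (d, 0)) = 0 := by rw [hgF]; exact map_zero σ
  -- an affine point of the arc on `P'`
  obtain ⟨d', hd0', hdL', hd'⟩ : ∃ d : W K, d ≠ 0 ∧ d ∉ LW U₂ ∧ g (d, 0) ≠ 0 := by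
    by_contra hcon
    push Not at hcon
    exact hS2 (hc₂ S2 hcon)
  set z := F (el v₁ u₁ (F.symm (d', 0))) with hz
  have hzA : z ∈ arc U₂ v₂ := by
    rw [hz, heA, mem_arc_inf rfl]
    exact ⟨fun h0 => hd0' (congrArg Prod.fst h0), hdL'⟩
  have hze : z = (d', 0) + (g (d', 0) / κ) • a := he (d', 0)
  have hz2 : z.2 = g (d', 0) / κ * a.2 := by
    rw [hze]
    show 0 + g (d', 0) / κ * a.2 = _
    rw [zero_add]
  have hz20 : z.2 ≠ 0 := by
    rw [hz2]
    exact mul_ne_zero (div_ne_zero hd' hκ0) hau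
  have hzg : g z = g (d', 0) := by
    rw [hze, hg_add, hg_smul, hga, mul_zero, add_zero]
  -- the two elements of `U₂`
  rw [mem_arc_aff hv₂ hd] at hdA
  rw [mem_arc_aff hv₂ hz20] at hzA
  set s := (v₂.2 / (F (d, 0)).2) • (F (d, 0)).1 - v₂.1 with hs
  set s' := (v₂.2 / z.2) • z.1 - v₂.1 with hs'
  have hgs : g (s, 0) = - g v₂ := by
    have e : ((s, 0) : W K × K) = (v₂.2 / (F (d, 0)).2) • F (d, 0) + (-1 : K) • v₂ := by
      apply Prod.ext
      · show s = (v₂.2 / (F (d, 0)).2) • (F (d, 0)).1 + (-1 : K) • v₂.1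
        rw [hs, neg_one_smul, sub_eq_add_neg]
      · show (0 : K) = v₂.2 / (F (d, 0)).2 * (F (d, 0)).2 + (-1) * v₂.2
        field_simp
        ring
    rw [e, hg_add, hg_smul, hg_smul, hdg]
    ring
  have hgs' : g (s', 0) = v₂.2 * κ / a.2 - g v₂ := by
    have e : ((s', 0) : W K × K) = (v₂.2 / z.2) • z + (-1 : K) • v₂ := by
      apply Prod.ext
      · show s' = (v₂.2 / z.2) • z.1 + (-1 : K) • v₂.1
        rw [hs', neg_one_smul, sub_eq_add_neg]
      · show (0 : K) = v₂.2 / z.2 * z.2 + (-1) * v₂.2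
        field_simp
        ring
    rw [e, hg_add, hg_smul, hg_smul, hzg, hz2]
    field_simp
    ring
  set u₂ := s' - s with hu₂
  have hu₂U : u₂ ∈ U₂ := U₂.sub_mem hzA hdA
  have hgu₂ : g (u₂, 0) = v₂.2 * κ / a.2 := by
    have e : ((u₂, 0) : W K × K) = (s', 0) + (-1 : K) • (s, 0) := by
      apply Prod.ext
      · show u₂ = s' + (-1 : K) • s
        rw [hu₂, neg_one_smul, sub_eq_add_neg]
      · show (0 : K) = 0 + (-1) * 0
        ring
    rw [e, hg_add, hg_smul, hgs', hgs]
    ring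
  -- the new collineation
  let F' : (W K × K) ≃+ (W K × K) :=
    ((F.trans (elE v₂ u₂)).trans F.symm).trans ((elE v₁ u₁).trans F)
  have hF'e : ∀ y, F' y = F (el v₁ u₁ (F.symm (el v₂ u₂ (F y)))) := fun y => rfl
  have hF's : IsSemi σ F' := by
    intro c y
    rw [hF'e, hF'e, hF, el_smul, hFs, σ.symm_apply_apply, el_smul, hF]
  have hF'A : ∀ y, y ∈ arc U₁ v₁ ↔ F' y ∈ arc U₂ v₂ := by
    intro y
    rw [hF'e, heA, el_arc hv₂ hu₂U, hA]
  have hF'P : ∀ y, y.2 = 0 → (F' y).2 = 0 := by
    intro y hy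
    rw [hF'e, he]
    have h1 : g (F y) = 0 := by rw [hgF, hy, map_zero]
    have e1 : el v₂ u₂ (F y) = F y + ((F y).2 / v₂.2) • ((u₂, 0) : W K × K) := by
      unfold el
      apply Prod.ext
      · rfl
      · show (F y).2 = (F y).2 + (F y).2 / v₂.2 * 0
        rw [mul_zero, add_zero]
    have h2 : g (el v₂ u₂ (F y)) = (F y).2 * κ / a.2 := by
      rw [e1, hg_add, hg_smul, h1, hgu₂]
      field_simp
      ring
    show (el v₂ u₂ (F y)).2 + g (el v₂ u₂ (F y)) / κ * a.2 = 0
    rw [h2, el_snd]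
    have : (F y).2 * κ / a.2 / κ * a.2 = (F y).2 := by field_simp
    rw [this, add_self_K]
  exact caseA hv₁ hv₂ σ F' hF's hF'A hF'P

end Pool.Agent.R801.KM
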