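import Pool.Agent.R801.KM.Alg

/-!
# Counting: clubs satisfy the hypotheses of the reduction
-/

namespace Pool.Agent.R801.KM

variable {K : Type} [Field K] [Algebra (ZMod 2) K]

omit [Algebra (ZMod 2) K] in
/-- A proper subspace of the plane is spanned by one vector. -/
lemma proper_sub [Finite K] {S : Submodule K (W K)} (hS : S ≠ ⊤) :
    ∃ x : W K, x ≠ 0 ∧ ∀ s ∈ S, s ∈ K ∙ x := by
  have h2 : Module.finrank K (W K) = 2 := by simp [W]
  have h1 : Module.finrank K S < Module.finrank K (W K) :=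
    Submodule.finrank_lt (lt_top_iff_ne_top.mpr hS).ne
  by_cases h0 : S = ⊥
  · refine ⟨fun _ => 1, ?_, ?_⟩
    · intro h
      have := congrFun h 0
      exact one_ne_zero this
    · intro s hs
      rw [h0] at hs
      rw [(Submodule.mem_bot K).mp hs]
      exact Submodule.zero_mem _
  · obtain ⟨x, hx, hx0⟩ := Submodule.exists_mem_ne_zero_of_ne_bot h0
    refine ⟨x, hx0, ?_⟩
    have h3 : K ∙ x ≤ S := by
      rw [Submodule.span_singleton_le_iff_mem]; exact hx
    have h4 : Module.finrank K (K ∙ x) = 1 := finrank_span_singleton hx0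
    have h5 : K ∙ x = S := by
      apply Submodule.eq_of_le_of_finrank_le h3
      omega
    intro s hs
    rw [h5]; exact hs

lemma span_eq_of_mem {x w : W K} (hx : x ≠ 0) (h : x ∈ K ∙ w) : (K ∙ x) = (K ∙ w) := by
  obtain ⟨c, rfl⟩ := Submodule.mem_span_singleton.mp h
  have hc : c ≠ 0 := by
    rintro rfl
    exact hx (zero_smul _ _)
  exact Submodule.span_singleton_smul_eq (IsUnit.mk0 c hc) w

/-- A club with `i < n` spans the plane. -/
lemma club_span [Finite K] {n i : ℕ} (hi : 1 ≤ i) (hin : i < n) {U : Submodule (ZMod 2) (W K)}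
    (hU : IsClub n i U) (S : Submodule K (W K)) (h : ∀ u ∈ U, u ∈ S) : S = ⊤ := by
  by_contra hS
  obtain ⟨x, hx0, hx⟩ := proper_sub hS
  obtain ⟨hr, w, hw0, hw, hwt⟩ := hU
  have hle : U ⊓ (K ∙ x).restrictScalars (ZMod 2) = U := by
    apply inf_eq_left.mpr
    intro u hu
    exact hx u (h u hu)
  have hwx : weight U x = n := by
    unfold weight
    rw [hle, hr]
  by_cases hxw : x ∈ K ∙ w
  · have e := span_eq_of_mem hx0 hxw
    unfold weight at hwx hw
    rw [e, hw] at hwx
    omega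
  · -- some nonzero vector of `U`
    have hU0 : U ≠ ⊥ := by
      rintro rfl
      rw [finrank_bot] at hr
      omega
    obtain ⟨u, hu, hu0⟩ := Submodule.exists_mem_ne_zero_of_ne_bot hU0
    have hux : u ∈ K ∙ x := hx u (h u hu)
    have e := span_eq_of_mem hu0 hux
    have huL : u ∈ LW U := ⟨hu0, 1, one_ne_zero, by rw [one_smul]; exact hu⟩
    have huw : u ∉ K ∙ w := by
      intro h1
      have e1 := span_eq_of_mem hu0 h1
      rw [e] at e1
      exact hxw (e1 ▸ Submodule.mem_span_singleton_self x)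
    have h1 := hwt u huL huw
    unfold weight at h1 hwx
    rw [e, hwx] at h1
    omega

/-- The complement of `L_U` is not contained in one point. -/
lemma compl_span [Finite K] {n : ℕ} (hn : 1 ≤ n) (hK : Nat.card K = 2 ^ n)
    {U : Submodule (ZMod 2) (W K)} (hU : Module.finrank (ZMod 2) U = n)
    (S : Submodule K (W K)) (h : ∀ x, x ≠ 0 → x ∉ LW U → x ∈ S) : S = ⊤ := by
  classical
  by_contra hS
  obtain ⟨x, hx0, hx⟩ := proper_sub hS
  let _ : Fintype K := Fintype.ofFinite K
  let _ : Fintype U := Fintype.ofFinite U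
  have hq : Fintype.card K = 2 ^ n := by rw [← hK, Nat.card_eq_fintype_card]
  have hUc : Fintype.card U = 2 ^ n := by
    rw [Module.card_eq_pow_finrank (K := ZMod 2), ZMod.card, hU]
  -- the covering
  have hcov : (Finset.univ : Finset (W K)) ⊆
      ((Finset.univ.erase (0 : K)) ×ˢ ((Finset.univ : Finset U).erase 0)).image
        (fun p : K × U => p.1 • (p.2 : W K)) ∪ Finset.univ.image (fun c : K => c • x) := by
    intro y _
    rw [Finset.mem_union]
    by_cases hy0 : y = 0
    · right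
      rw [Finset.mem_image]
      exact ⟨0, Finset.mem_univ _, by rw [hy0, zero_smul]⟩
    by_cases hyL : y ∈ LW U
    · left
      obtain ⟨-, c, hc, hm⟩ := hyL
      rw [Finset.mem_image]
      refine ⟨(c⁻¹, ⟨c • y, hm⟩), ?_, ?_⟩
      · rw [Finset.mem_product, Finset.mem_erase, Finset.mem_erase]
        refine ⟨⟨inv_ne_zero hc, Finset.mem_univ _⟩, ?_, Finset.mem_univ _⟩
        intro h0
        have h1 : c • y = 0 := congrArg Subtype.val h0
        rcases smul_eq_zero.mp h1 with h2 | h2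
        · exact hc h2
        · exact hy0 h2
      · show c⁻¹ • (c • y) = y
        rw [smul_smul, inv_mul_cancel₀ hc, one_smul]
    · right
      obtain ⟨c, hc⟩ := Submodule.mem_span_singleton.mp (hx y (h y hy0 hyL))
      rw [Finset.mem_image]
      exact ⟨c, Finset.mem_univ _, hc⟩
  have h1 := Finset.card_le_card hcov
  have h2 : (Finset.univ : Finset (W K)).card = 2 ^ n * 2 ^ n := by
    rw [Finset.card_univ]
    simp [W, hq, pow_two]
  have h3 : (((Finset.univ.erase (0 : K)) ×ˢ ((Finset.univ : Finset U).erase 0)).image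
        (fun p : K × U => p.1 • (p.2 : W K))).card ≤ (2 ^ n - 1) * (2 ^ n - 1) := by
    refine le_trans Finset.card_image_le ?_
    rw [Finset.card_product, Finset.card_erase_of_mem (Finset.mem_univ _),
      Finset.card_erase_of_mem (Finset.mem_univ _), Finset.card_univ, Finset.card_univ, hq, hUc]
  have h4 : (Finset.univ.image (fun c : K => c • x)).card ≤ 2 ^ n := by
    refine le_trans Finset.card_image_le ?_
    rw [Finset.card_univ, hq]
  have h5 := le_trans h1 (Finset.card_union_le _ _)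
  rw [h2] at h5
  have h6 : 2 ≤ 2 ^ n := by
    calc 2 = 2 ^ 1 := rfl
      _ ≤ 2 ^ n := Nat.pow_le_pow_right (by norm_num) hn
  obtain ⟨m, hm⟩ : ∃ m, 2 ^ n = m + 1 := ⟨2 ^ n - 1, by omega⟩
  rw [hm] at h5 h3 h4 h6
  have h7 : (m + 1 - 1) = m := rfl
  rw [h7] at h3
  nlinarith

/-- If `i = n` then `U` is a one-dimensional `K`-subspace. -/
lemma club_full [Finite K] {n : ℕ} (hK : Nat.card K = 2 ^ n)
    {U : Submodule (ZMod 2) (W K)} (hU : IsClub n n U) :
    ∃ w : W K, w ≠ 0 ∧ ∀ x, x ∈ U ↔ x ∈ K ∙ w := by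
  classical
  obtain ⟨hr, w, hw0, hw, -⟩ := hU
  refine ⟨w, hw0, ?_⟩
  have h1 : U ⊓ (K ∙ w).restrictScalars (ZMod 2) = U := by
    apply Submodule.eq_of_le_of_finrank_le inf_le_left
    unfold weight at hw
    rw [hw, hr]
  have h2 : U ≤ (K ∙ w).restrictScalars (ZMod 2) := inf_eq_left.mp h1
  have h3 : Module.finrank (ZMod 2) ((K ∙ w).restrictScalars (ZMod 2)) = n := by
    let _ : Fintype K := Fintype.ofFinite K
    let _ : Fintype ((K ∙ w).restrictScalars (ZMod 2)) := Fintype.ofFinite _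
    have h4 : Fintype.card ((K ∙ w).restrictScalars (ZMod 2)) = 2 ^ n := by
      rw [← hK, Nat.card_eq_fintype_card]
      apply Fintype.card_congr
      exact (LinearEquiv.toSpanNonzeroSingleton K (W K) w hw0).toEquiv.symm
    rw [Module.card_eq_pow_finrank (K := ZMod 2), ZMod.card] at h4
    exact Nat.pow_right_injective (le_refl 2) h4
  have h4 : U = (K ∙ w).restrictScalars (ZMod 2) := by
    apply Submodule.eq_of_le_of_finrank_le h2
    rw [h3, hr]
  intro x
  rw [h4]
  rfl

lemma equiv_full [Finite K] {U₁ U₂ : Submodule (ZMod 2) (W K)}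
    (h₁ : ∃ w : W K, w ≠ 0 ∧ ∀ x, x ∈ U₁ ↔ x ∈ K ∙ w)
    (h₂ : ∃ w : W K, w ≠ 0 ∧ ∀ x, x ∈ U₂ ↔ x ∈ K ∙ w) : EquivU U₁ U₂ := by
  obtain ⟨w₁, hw₁, h₁⟩ := h₁
  obtain ⟨w₂, hw₂, h₂⟩ := h₂
  obtain ⟨g, hg⟩ := Submodule.exists_linearEquiv_restrict_eq
    ((LinearEquiv.toSpanNonzeroSingleton K (W K) w₁ hw₁).symm.trans
      (LinearEquiv.toSpanNonzeroSingleton K (W K) w₂ hw₂))
  refine ⟨RingEquiv.refl K, g.toAddEquiv, ?_, ?_⟩
  · intro c x
    exact g.map_smul c x
  · have hgw : g w₁ ∈ K ∙ w₂ := by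
      have := hg ⟨w₁, Submodule.mem_span_singleton_self w₁⟩
      have e : g w₁ = g ((⟨w₁, Submodule.mem_span_singleton_self w₁⟩ : K ∙ w₁) : W K) := rfl
      rw [e, ← this]
      exact Subtype.mem _
    have hgw0 : g w₁ ≠ 0 := by
      intro h
      exact hw₁ (g.injective (by rw [h, map_zero]))
    have e := span_eq_of_mem hgw0 hgw
    intro x
    rw [h₁, h₂, ← e]
    show x ∈ K ∙ w₁ ↔ g x ∈ K ∙ g w₁
    rw [Submodule.mem_span_singleton, Submodule.mem_span_singleton]
    constructor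
    · rintro ⟨c, rfl⟩
      exact ⟨c, (g.map_smul c w₁).symm⟩
    · rintro ⟨c, hc⟩
      refine ⟨c, g.injective ?_⟩
      rw [g.map_smul, hc]

/-- Equivalent arcs come from equivalent clubs. -/
theorem main [Finite K] {n i : ℕ} (hn : 1 ≤ n) (hi : 1 ≤ i) (hK : Nat.card K = 2 ^ n)
    {U₁ U₂ : Submodule (ZMod 2) (W K)} (hU₁ : IsClub n i U₁) (hU₂ : IsClub n i U₂)
    {v₁ v₂ : W K × K}
    (hv₁ : v₁ ∉ Submodule.span K {y : W K × K | ∃ u ∈ U₁, y = (u, 0)})
    (hv₂ : v₂ ∉ Submodule.span K {y : W K × K | ∃ u ∈ U₂, y = (u, 0)})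
    (h : EquivArc (arc U₁ v₁) (arc U₂ v₂)) : EquivU U₁ U₂ := by
  have hin : i ≤ n := by
    obtain ⟨hr, w, -, hw, -⟩ := hU₁
    rw [← hr, ← hw]
    exact Submodule.finrank_mono inf_le_left
  rcases Nat.lt_or_ge i n with hlt | hge
  · have key : ∀ {U : Submodule (ZMod 2) (W K)} {v : W K × K}, IsClub n i U →
        v ∉ Submodule.span K {y : W K × K | ∃ u ∈ U, y = (u, 0)} → v.2 ≠ 0 := by
      intro U v hU hv h0
      apply hv
      have h1 := club_span hi hlt hU
        ((Submodule.span K {y : W K × K | ∃ u ∈ U, y = (u, 0)}).comap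
          (LinearMap.inl K (W K) K)) (by
            intro u hu
            exact Submodule.subset_span ⟨u, hu, rfl⟩)
      have h2 : v.1 ∈ (Submodule.span K {y : W K × K | ∃ u ∈ U, y = (u, 0)}).comap
          (LinearMap.inl K (W K) K) := by rw [h1]; trivial
      have h3 : (LinearMap.inl K (W K) K) v.1 = v := Prod.ext rfl h0.symm
      rw [Submodule.mem_comap, h3] at h2
      exact h2
    exact reduction (key hU₁ hv₁) (key hU₂ hv₂) (club_span hi hlt hU₁)
      (compl_span hn hK hU₁.1) (compl_span hn hK hU₂.1) h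
  · have e : i = n := le_antisymm hin hge
    subst e
    exact equiv_full (club_full hK hU₁) (club_full hK hU₂)

end Pool.Agent.R801.KM
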