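import Mathlib

/-!
# Translation KM-arcs from clubs (definitions for `MP_5fce70_co`)
-/

namespace Pool.Agent.R801.KM

section
variable (K : Type) [Field K] [Algebra (ZMod 2) K]

/-- The plane `K ^ 2`, that is the vector space of the line `X_2 = 0`. -/
abbrev W : Type := Fin 2 → K

end

variable {K : Type} [Field K] [Algebra (ZMod 2) K]

/-- Weight of the point `⟨w⟩` in the linear set `L_U`. -/
noncomputable def weight (U : Submodule (ZMod 2) (W K)) (w : W K) : ℕ :=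
  Module.finrank (ZMod 2) (U ⊓ (K ∙ w).restrictScalars (ZMod 2) : Submodule (ZMod 2) (W K))

/-- The nonzero vectors that span a point of `L_U`. -/
def LW (U : Submodule (ZMod 2) (W K)) : Set (W K) :=
  {x | x ≠ 0 ∧ ∃ c : K, c ≠ 0 ∧ c • x ∈ U}

/-- `L_U` is an `i`-club of rank `n`. -/
def IsClub (n i : ℕ) (U : Submodule (ZMod 2) (W K)) : Prop :=
  Module.finrank (ZMod 2) U = n ∧
    ∃ w : W K, w ≠ 0 ∧ weight U w = i ∧ ∀ x ∈ LW U, x ∉ K ∙ w → weight U x = 1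

/-- `U' = U ⊕ ⟨v⟩` in `K ^ 3 = K ^ 2 × K`. -/
def ext (U : Submodule (ZMod 2) (W K)) (v : W K × K) : Submodule (ZMod 2) (W K × K) :=
  U.map (LinearMap.inl (ZMod 2) (W K) K) ⊔ Submodule.span (ZMod 2) {v}

/-- The nonzero vectors of `K ^ 3` that span a point of the arc
`(L_{U'} ∖ ℓ) ∪ (ℓ ∖ L_U)`, where `ℓ` is the line `X_2 = 0`. -/
def arc (U : Submodule (ZMod 2) (W K)) (v : W K × K) : Set (W K × K) :=
  {y | y ≠ 0 ∧ ((y.2 ≠ 0 ∧ ∃ c : K, c ≠ 0 ∧ c • y ∈ ext U v) ∨ (y.2 = 0 ∧ y.1 ∉ LW U))}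

/-- A semilinear bijection with companion automorphism `σ`. -/
def IsSemi {M : Type} [AddCommGroup M] [Module K M] (σ : K ≃+* K) (F : M ≃+ M) : Prop :=
  ∀ (c : K) (x : M), F (c • x) = σ c • F x

/-- `ΓL(2, K)`-equivalence of subspaces of `K ^ 2`. -/
def EquivU (U₁ U₂ : Submodule (ZMod 2) (W K)) : Prop :=
  ∃ (σ : K ≃+* K) (G : W K ≃+ W K), IsSemi σ G ∧ ∀ x, x ∈ U₁ ↔ G x ∈ U₂

/-- `PΓL(3, K)`-equivalence of the point sets of two arcs. -/
def EquivArc (A₁ A₂ : Set (W K × K)) : Prop :=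
  ∃ (σ : K ≃+* K) (F : (W K × K) ≃+ (W K × K)), IsSemi σ F ∧ ∀ y, y ∈ A₁ ↔ F y ∈ A₂

end Pool.Agent.R801.KM
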